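import Pool.Agent.Helper95.AB.GoalsX

/-! Project AB, module FM: interchange of sum and integral. -/

open MeasureTheory Set Filter Topology
open scoped ContDiff ENNReal

noncomputable section

namespace Pool.Agent.Helper39.AB

open Pool.Agent.Helper24.AB Pool.Agent.Helper95.AB

/-- the measure on `(-a,a) × [0,2π)` -/
def mu (a : ℝ) : Measure (ℝ × ℝ) :=
  (volume.restrict (Ioo (-a) a)).prod (volume.restrict (Ico 0 (2 * Real.pi)))

theorem cell_eq (a : ℝ) :
    cell a = Complex.measurableEquivRealProd ⁻¹' (Ioo (-a) a ×ˢ Ico 0 (2 * Real.pi)) := by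
  ext w
  change (|w.re| < a ∧ 0 ≤ w.im ∧ w.im < 2 * Real.pi) ↔
    (-a < w.re ∧ w.re < a) ∧ (0 ≤ w.im ∧ w.im < 2 * Real.pi)
  rw [abs_lt]

theorem cell_meas (a : ℝ) : MeasurableSet (cell a) := by
  rw [cell_eq]
  exact (measurableSet_Ioo.prod measurableSet_Ico).preimage
    Complex.measurableEquivRealProd.measurable

theorem mp_cell (a : ℝ) : MeasurePreserving Complex.measurableEquivRealProd
    (volume.restrict (cell a)) (mu a) := by
  have h := Complex.volume_preserving_equiv_real_prod.restrict_preimage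
    (measurableSet_Ioo.prod measurableSet_Ico : MeasurableSet
      (Ioo (-a) a ×ˢ Ico (0 : ℝ) (2 * Real.pi)))
  rw [← cell_eq, Measure.volume_eq_prod, ← Measure.prod_restrict] at h
  exact h

section
variable {a : ℝ} {H : ℂ → ℂ} {Dn : ℤ → ℝ → ℂ} {b : ℤ → ℝ}

/-- `H` on the product -/
def hp (H : ℂ → ℂ) (p : ℝ × ℝ) : ℂ := H ⟨p.1, p.2⟩

/-- the terms -/
def gn (Dn : ℤ → ℝ → ℂ) (n : ℤ) (p : ℝ × ℝ) : ℂ :=
  Dn n p.1 * Complex.exp (Complex.I * n * p.2)

theorem norm_gn (n : ℤ) (p : ℝ × ℝ) : ‖gn Dn n p‖ = ‖Dn n p.1‖ := by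
  unfold gn
  rw [norm_mul]
  have h : Complex.I * n * p.2 = ((n * p.2 : ℝ) : ℂ) * Complex.I := by
    push_cast
    ring
  rw [h, Complex.norm_exp_ofReal_mul_I, mul_one]

theorem hp_mem (hH : MemLp H 2 (volume.restrict (cell a))) : MemLp (hp H) 2 (mu a) := by
  have h := hH.comp_measurePreserving (mp_cell a).symm
  exact h

theorem gn_meas {n : ℤ} (hD : AEStronglyMeasurable (Dn n) (volume.restrict (Ioo (-a) a))) :
    AEStronglyMeasurable (gn Dn n) (mu a) := by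
  refine AEStronglyMeasurable.mul ?_ ?_
  · exact hD.comp_fst
  · exact (Continuous.aestronglyMeasurable (by fun_prop))

theorem int_one : ∫ _ in Ico (0 : ℝ) (2 * Real.pi), (1 : ℝ) = 2 * Real.pi := by
  have h : 0 ≤ 2 * Real.pi := by positivity
  simp [h]

theorem gn_mem {n : ℤ} (hD : AEStronglyMeasurable (Dn n) (volume.restrict (Ioo (-a) a)))
    (hb : 0 ≤ b n)
    (h : IntegrableOn (fun σ => ‖Dn n σ‖ ^ 2) (Ioo (-a) a) ∧
      ∫ σ in Ioo (-a) a, ‖Dn n σ‖ ^ 2 ≤ b n ^ 2) :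
    MemLp (gn Dn n) 2 (mu a) ∧ (∫ p, ‖gn Dn n p‖ ^ 2 ∂(mu a)) ≤ 2 * Real.pi * b n ^ 2 := by
  have h1 : Integrable (fun _ : ℝ => (1 : ℝ)) (volume.restrict (Ico (0 : ℝ) (2 * Real.pi))) := by
    exact integrable_const 1
  have h2 : Integrable (fun p : ℝ × ℝ => ‖Dn n p.1‖ ^ 2 * (1 : ℝ)) (mu a) :=
    Integrable.mul_prod (f := fun σ => ‖Dn n σ‖ ^ 2) h.1 h1
  constructor
  · rw [memLp_two_iff_integrable_sq_norm (gn_meas hD)]
    simp only [norm_gn]
    simpa using h2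
  · have h3 : ∫ p, ‖Dn n p.1‖ ^ 2 * (1 : ℝ) ∂(mu a) =
        (∫ σ in Ioo (-a) a, ‖Dn n σ‖ ^ 2) * ∫ _ in Ico (0 : ℝ) (2 * Real.pi), (1 : ℝ) :=
      integral_prod_mul (fun σ => ‖Dn n σ‖ ^ 2) (fun _ => (1 : ℝ))
    simp only [norm_gn]
    simp only [mul_one] at h3
    rw [h3, int_one]
    have h4 : 0 ≤ 2 * Real.pi := by positivity
    nlinarith [h.2]

/-- Cauchy-Schwarz -/
theorem cs {α : Type*} [MeasurableSpace α] {μ : Measure α} {f g : α → ℂ} (hf : MemLp f 2 μ)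
    (hg : MemLp g 2 μ) : Integrable (fun x => f x * (starRingEnd ℂ) (g x)) μ ∧
      ∫ x, ‖f x * (starRingEnd ℂ) (g x)‖ ∂μ ≤
        Real.sqrt (∫ x, ‖f x‖ ^ 2 ∂μ) * Real.sqrt (∫ x, ‖g x‖ ^ 2 ∂μ) := by
  have hg' : MemLp (fun x => (starRingEnd ℂ) (g x)) 2 μ := by
    refine ⟨?_, ?_⟩
    · exact Complex.continuous_conj.comp_aestronglyMeasurable hg.1
    · have h : eLpNorm (fun x => (starRingEnd ℂ) (g x)) 2 μ = eLpNorm g 2 μ :=
        eLpNorm_congr_norm_ae (Eventually.of_forall fun x => by simp)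
      rw [h]
      exact hg.2
  refine ⟨hf.integrable_mul hg', ?_⟩
  have h2 : (2 : ℝ).HolderConjugate 2 := Real.HolderConjugate.two_two
  have e : ENNReal.ofReal 2 = 2 := by norm_num
  have h := integral_mul_le_Lp_mul_Lq_of_nonneg (μ := μ) h2 (f := fun x => ‖f x‖)
    (g := fun x => ‖g x‖) (Eventually.of_forall fun x => norm_nonneg _)
    (Eventually.of_forall fun x => norm_nonneg _) (by rw [e]; exact hf.norm)
    (by rw [e]; exact hg.norm)
  simp only [Real.rpow_two, norm_mul, RCLike.norm_conj] at h ⊢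
  rw [Real.sqrt_eq_rpow, Real.sqrt_eq_rpow]
  exact h

theorem int_gn (n : ℤ) (hi : Integrable (fun p => gn Dn n p * (starRingEnd ℂ) (hp H p)) (mu a))
    (h0 : ∫ σ in Ioo (-a) a, Dn n σ * (starRingEnd ℂ) (fc H n σ) = 0) :
    ∫ p, gn Dn n p * (starRingEnd ℂ) (hp H p) ∂(mu a) = 0 := by
  have h1 : ∫ p, gn Dn n p * (starRingEnd ℂ) (hp H p) ∂(mu a) =
      ∫ σ in Ioo (-a) a, ∫ t in Ico (0 : ℝ) (2 * Real.pi),
        gn Dn n (σ, t) * (starRingEnd ℂ) (hp H (σ, t)) := integral_prod _ hi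
  rw [h1]
  have hpi : (0 : ℝ) ≤ 2 * Real.pi := by positivity
  have h2 : ∀ σ : ℝ, ∫ t in Ico (0 : ℝ) (2 * Real.pi),
      gn Dn n (σ, t) * (starRingEnd ℂ) (hp H (σ, t)) =
      (2 * Real.pi : ℂ) * (Dn n σ * (starRingEnd ℂ) (fc H n σ)) := by
    intro σ
    have e1 : ∀ t : ℝ, gn Dn n (σ, t) * (starRingEnd ℂ) (hp H (σ, t)) =
        Dn n σ * (starRingEnd ℂ) (H ⟨σ, t⟩ * Complex.exp (-(Complex.I * n * t))) := by
      intro t
      unfold gn hp
      simp only [map_mul, ← Complex.exp_conj, map_neg, Complex.conj_I, Complex.conj_ofReal,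
        map_intCast, neg_mul, neg_neg]
      ring
    simp only [e1]
    rw [integral_const_mul, integral_conj]
    unfold fc fcu
    rw [intervalIntegral.integral_of_le hpi, integral_Ico_eq_integral_Ioo,
      integral_Ioc_eq_integral_Ioo, map_mul, Complex.conj_ofReal]
    have hne : (Real.pi : ℂ) ≠ 0 := by exact_mod_cast Real.pi_ne_zero
    push_cast
    field_simp
  simp only [h2]
  rw [integral_const_mul, h0, mul_zero]

end

theorem itc : S_ITC := by
  intro a D H Dn b ha hD hm hb hs hL hH h0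
  have hH' := hp_mem hH
  have hg : ∀ n, MemLp (gn Dn n) 2 (mu a) ∧
      (∫ p, ‖gn Dn n p‖ ^ 2 ∂(mu a)) ≤ 2 * Real.pi * b n ^ 2 := fun n =>
    gn_mem (hm n) (hb n) (hL n)
  have hcs := fun n => cs (hg n).1 hH'
  have hsum : Summable fun n => ∫ p, ‖gn Dn n p * (starRingEnd ℂ) (hp H p)‖ ∂(mu a) := by
    refine Summable.of_nonneg_of_le (fun n => integral_nonneg fun p => norm_nonneg _)
      (fun n => (hcs n).2) ?_
    refine Summable.mul_right _ ?_
    refine Summable.of_nonneg_of_le (fun n => Real.sqrt_nonneg _)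
      (fun n => Real.sqrt_le_sqrt (hg n).2) ?_
    have e : ∀ n, Real.sqrt (2 * Real.pi * b n ^ 2) = Real.sqrt (2 * Real.pi) * b n := by
      intro n
      rw [Real.sqrt_mul (by positivity), Real.sqrt_sq (hb n)]
    simp only [e]
    exact hs.mul_left _
  have h1 := hasSum_integral_of_summable_integral_norm (fun n => (hcs n).1) hsum
  have h2 : ∀ n, ∫ p, gn Dn n p * (starRingEnd ℂ) (hp H p) ∂(mu a) = 0 := fun n =>
    int_gn n (hcs n).1 (h0 n)
  simp only [h2] at h1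
  have h3 := h1.unique hasSum_zero
  rw [← h3, ← (mp_cell a).integral_comp']
  refine setIntegral_congr_fun (cell_meas a) fun w hw => ?_
  have hw' : w ∈ strip a := hw.1
  have h4 := (hD w hw').mul_right ((starRingEnd ℂ) (H w))
  exact h4.tsum_eq.symm

end Pool.Agent.Helper39.AB
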