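import Pool.Agent.Helper15.AB.GoalsE
import Mathlib.Analysis.Calculus.DerivativeTest

/-! Project AB, module GEO: the barrier lemma. -/

open MeasureTheory Set Filter Topology
open scoped ContDiff

noncomputable section

namespace Pool.Agent.Helper39.AB

open Pool.Agent.Helper24.AB Pool.Agent.Helper15.AB

variable {E : Type*} [NormedAddCommGroup E] [NormedSpace ℝ E]

/-- the parabola -/
def gam (P z N : E) (μ t : ℝ) : E := P + t • z + (μ * t ^ 2) • N

theorem gam_zero (P z N : E) (μ : ℝ) : gam P z N μ 0 = P := by simp [gam]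

theorem gam_deriv (P z N : E) (μ t : ℝ) :
    HasDerivAt (gam P z N μ) (z + (2 * μ * t) • N) t := by
  have h1 : HasDerivAt (fun t : ℝ => t • z) z t := by
    simpa using (hasDerivAt_id t).smul_const z
  have h2 : HasDerivAt (fun t : ℝ => μ * t ^ 2) (2 * μ * t) t := by
    have := (hasDerivAt_pow 2 t).const_mul μ
    refine this.congr_deriv ?_
    push_cast
    ring
  have h3 := (h1.const_add P).fun_add (h2.smul_const N)
  exact h3

theorem gam_tendsto (P z N : E) (μ : ℝ) : Tendsto (gam P z N μ) (𝓝 0) (𝓝 P) := by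
  have h := (gam_deriv P z N μ 0).continuousAt
  rw [ContinuousAt, gam_zero] at h
  exact h

theorem phi_deriv {r : E → ℝ} {P : E} (hr : ContDiffAt ℝ 2 r P) (z N : E) (μ : ℝ) :
    ContinuousAt (fun t => r (gam P z N μ t)) 0 ∧
    deriv (fun t => r (gam P z N μ t)) 0 = fderiv ℝ r P z ∧
    deriv (deriv (fun t => r (gam P z N μ t))) 0 =
      fderiv ℝ (fderiv ℝ r) P z z + 2 * μ * fderiv ℝ r P N := by
  have h1 : ∀ᶠ t in 𝓝 (0 : ℝ), HasDerivAt (fun t => r (gam P z N μ t))
      (fderiv ℝ r (gam P z N μ t) (z + (2 * μ * t) • N)) t := by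
    have h2 : ∀ᶠ x in 𝓝 P, DifferentiableAt ℝ r x :=
      (hr.eventually (by simp)).mono fun x hx => hx.differentiableAt (by simp)
    filter_upwards [(gam_tendsto P z N μ).eventually h2] with t ht
    exact ht.hasFDerivAt.comp_hasDerivAt t (gam_deriv P z N μ t)
  have h0 := h1.self_of_nhds
  have hd : HasFDerivAt (fderiv ℝ r) (fderiv ℝ (fderiv ℝ r) P) (gam P z N μ 0) := by
    rw [gam_zero]
    exact ((hr.fderiv_right (m := 1) (by norm_num)).differentiableAt (by simp)).hasFDerivAt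
  have h3 := hd.comp_hasDerivAt 0 (gam_deriv P z N μ 0)
  have h4 : HasDerivAt (fun t : ℝ => z + (2 * μ * t) • N) ((2 * μ) • N) 0 := by
    have h5 : HasDerivAt (fun t : ℝ => 2 * μ * t) (2 * μ) 0 := by
      simpa using (hasDerivAt_id (0 : ℝ)).const_mul (2 * μ)
    exact (h5.smul_const N).const_add z
  have h5 := h3.clm_apply h4
  refine ⟨h0.continuousAt, ?_, ?_⟩
  · rw [h0.deriv, gam_zero]
    simp
  · have h6 : deriv (fun t => r (gam P z N μ t)) =ᶠ[𝓝 0]
        fun t => fderiv ℝ r (gam P z N μ t) (z + (2 * μ * t) • N) :=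
      h1.mono fun t ht => ht.deriv
    rw [h6.deriv_eq]
    refine h5.deriv.trans ?_
    simp [gam_zero]

theorem deriv2_nonpos_of_max {f : ℝ → ℝ} (hd : deriv f 0 = 0) (hc : ContinuousAt f 0)
    (hm : IsLocalMax f 0) : deriv (deriv f) 0 ≤ 0 := by
  by_contra h
  rw [not_le] at h
  have h1 := isLocalMin_of_deriv_deriv_pos h hd hc
  have h2 : f =ᶠ[𝓝 0] fun _ => f 0 := by
    filter_upwards [h1, hm] with t ht ht'
    exact le_antisymm ht' ht
  have h3 : deriv f =ᶠ[𝓝 0] fun _ => 0 := by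
    have := h2.deriv
    refine this.trans (Eventually.of_forall fun t => ?_)
    simp
  rw [h3.deriv_eq] at h
  simp at h

theorem isLocalMax_of_deriv2_neg {f : ℝ → ℝ} (hd : deriv f 0 = 0) (hc : ContinuousAt f 0)
    (h : deriv (deriv f) 0 < 0) : IsLocalMax f 0 :=
  isLocalMax_of_deriv_deriv_neg h hd hc

theorem barl_general {r r₁ : E → ℝ} {P N : E} (hr : ContDiffAt ℝ 2 r P)
    (hr₁ : ContDiffAt ℝ 2 r₁ P) (h0 : r P = 0) (h0₁ : r₁ P = 0) (hN : fderiv ℝ r P N ≠ 0)
    (hN₁ : fderiv ℝ r₁ P N = fderiv ℝ r P N) (hle : ∀ᶠ Q in 𝓝 P, r Q ≤ 0 → r₁ Q ≤ 0) :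
    fderiv ℝ r₁ P = fderiv ℝ r P ∧ ∀ z, fderiv ℝ r P z = 0 →
      (fderiv ℝ (fderiv ℝ r₁) P z) z ≤ (fderiv ℝ (fderiv ℝ r) P z) z := by
  -- first order
  have h1 : ∀ z, fderiv ℝ r P z < 0 → fderiv ℝ r₁ P z ≤ 0 := by
    intro z hz
    have hg := (gam_deriv P z (0 : E) 0 0)
    have e1 : HasDerivAt (fun t => r (gam P z 0 0 t)) (fderiv ℝ r P z) 0 := by
      have h : HasFDerivAt r (fderiv ℝ r P) (gam P z 0 0 0) := by
        rw [gam_zero]
        exact (hr.differentiableAt (by simp)).hasFDerivAt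
      exact (h.comp_hasDerivAt 0 hg).congr_deriv (by simp)
    have e2 : HasDerivAt (fun t => r₁ (gam P z 0 0 t)) (fderiv ℝ r₁ P z) 0 := by
      have h : HasFDerivAt r₁ (fderiv ℝ r₁ P) (gam P z 0 0 0) := by
        rw [gam_zero]
        exact (hr₁.differentiableAt (by simp)).hasFDerivAt
      exact (h.comp_hasDerivAt 0 hg).congr_deriv (by simp)
    have f1 := e1.tendsto_slope_zero_right
    have f2 := e2.tendsto_slope_zero_right
    simp only [zero_add, gam_zero, h0, h0₁, sub_zero, smul_eq_mul] at f1 f2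
    refine le_of_tendsto f2 ?_
    have g1 := f1.eventually (gt_mem_nhds hz)
    have g2 : ∀ᶠ t in 𝓝[>] (0 : ℝ), r (gam P z 0 0 t) ≤ 0 → r₁ (gam P z 0 0 t) ≤ 0 :=
      ((gam_tendsto P z (0 : E) 0).eventually hle).filter_mono nhdsWithin_le_nhds
    filter_upwards [g1, g2, self_mem_nhdsWithin] with t ht1 ht2 ht3
    have ht3' : 0 < t := ht3
    have ht4 : 0 < t⁻¹ := inv_pos.2 ht3'
    have ht5 : r (gam P z 0 0 t) ≤ 0 := by
      by_contra hc
      rw [not_le] at hc
      have := mul_pos ht4 hc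
      linarith
    exact mul_nonpos_of_nonneg_of_nonpos ht4.le (ht2 ht5)
  obtain ⟨N', hN'⟩ : ∃ N', 0 < fderiv ℝ r P N' := by
    rcases lt_or_gt_of_ne hN with h | h
    · exact ⟨-N, by rw [map_neg]; linarith⟩
    · exact ⟨N, h⟩
  have h2 : ∀ z, fderiv ℝ r P z = 0 → fderiv ℝ r₁ P z ≤ 0 := by
    intro z hz
    by_contra hc
    rw [not_le] at hc
    have h3 : ∀ ε : ℝ, 0 < ε → fderiv ℝ r₁ P z ≤ ε * fderiv ℝ r₁ P N' := by
      intro ε hε
      have h4 := h1 (z - ε • N') (by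
        rw [map_sub, map_smul, hz, smul_eq_mul]
        have := mul_pos hε hN'
        linarith)
      rw [map_sub, map_smul, smul_eq_mul] at h4
      linarith
    rcases le_or_gt (fderiv ℝ r₁ P N') 0 with h5 | h5
    · have := h3 1 one_pos
      linarith
    · have := h3 (fderiv ℝ r₁ P z / (2 * fderiv ℝ r₁ P N')) (by positivity)
      have e : fderiv ℝ r₁ P z / (2 * fderiv ℝ r₁ P N') * fderiv ℝ r₁ P N' =
          fderiv ℝ r₁ P z / 2 := by
        field_simp
      rw [e] at this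
      linarith
  have h3 : ∀ z, fderiv ℝ r P z = 0 → fderiv ℝ r₁ P z = 0 := by
    intro z hz
    have h4 := h2 z hz
    have h5 := h2 (-z) (by rw [map_neg, hz, neg_zero])
    rw [map_neg] at h5
    linarith
  have hD : fderiv ℝ r₁ P = fderiv ℝ r P := by
    ext z
    have h4 := h3 (z - (fderiv ℝ r P z / fderiv ℝ r P N) • N) (by
      rw [map_sub, map_smul, smul_eq_mul]
      field_simp
      ring)
    rw [map_sub, map_smul, smul_eq_mul, hN₁] at h4
    field_simp at h4
    have : fderiv ℝ r₁ P z * 1 = fderiv ℝ r P z * 1 := by linarith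
    simpa using this
  refine ⟨hD, fun z hz => ?_⟩
  -- second order
  refine le_of_forall_pos_le_add fun δ hδ => ?_
  set μ : ℝ := (-δ - fderiv ℝ (fderiv ℝ r) P z z) / (2 * fderiv ℝ r P N) with hμ
  have hμ' : 2 * μ * fderiv ℝ r P N = -δ - fderiv ℝ (fderiv ℝ r) P z z := by
    rw [hμ]
    field_simp
  obtain ⟨a1, a2, a3⟩ := phi_deriv hr z N μ
  obtain ⟨b1, b2, b3⟩ := phi_deriv hr₁ z N μ
  have hmax := isLocalMax_of_deriv2_neg (by rw [a2, hz]) a1 (by rw [a3, hμ']; linarith)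
  have hmax₁ : IsLocalMax (fun t => r₁ (gam P z N μ t)) 0 := by
    filter_upwards [hmax, (gam_tendsto P z N μ).eventually hle] with t ht1 ht2
    simp only [gam_zero, h0, h0₁] at ht1 ⊢
    exact ht2 ht1
  have hfin := deriv2_nonpos_of_max (by rw [b2, hD, hz]) b1 hmax₁
  rw [b3, hN₁, hμ'] at hfin
  linarith

theorem barl : S_BARL := by
  intro r r₁ P N hr hr₁ h0 h0₁ hN hN₁ hle
  exact barl_general hr hr₁ h0 h0₁ hN hN₁ hle

end Pool.Agent.Helper39.AB
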