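import Pool.Agent.Helper24.AB.PHI.Goals

/-! Project AB, module PHI: the exact formula of `Δ√F`. -/

open MeasureTheory Set Filter Topology
open scoped ContDiff

noncomputable section

namespace Pool.Agent.Helper39.AB

open Pool.Agent.Helper24.AB

/-- `f` has partial derivatives `p`, `q` at `w` -/
def PD (f : ℂ → ℝ) (w : ℂ) (p q : ℝ) : Prop :=
  ∃ L : ℂ →L[ℝ] ℝ, HasFDerivAt f L w ∧ L 1 = p ∧ L Complex.I = q

namespace PD

theorem dS {f : ℂ → ℝ} {w : ℂ} {p q : ℝ} (h : PD f w p q) : Helper24.AB.dS f w = p := by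
  obtain ⟨L, hL, h1, -⟩ := h
  unfold Helper24.AB.dS
  rw [hL.fderiv, h1]

theorem dT {f : ℂ → ℝ} {w : ℂ} {p q : ℝ} (h : PD f w p q) : Helper24.AB.dT f w = q := by
  obtain ⟨L, hL, -, h1⟩ := h
  unfold Helper24.AB.dT
  rw [hL.fderiv, h1]

theorem congr {f : ℂ → ℝ} {w : ℂ} {p q p' q' : ℝ} (h : PD f w p q) (hp : p = p') (hq : q = q') :
    PD f w p' q' := by
  subst hp hq
  exact h

theorem re {φ : ℝ → ℝ} {φ' : ℝ} {w : ℂ} (h : HasDerivAt φ φ' w.re) :
    PD (fun w => φ w.re) w φ' 0 := by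
  refine ⟨φ' • Complex.reCLM, h.comp_hasFDerivAt w Complex.reCLM.hasFDerivAt, ?_, ?_⟩
  · simp
  · simp

theorem im {φ : ℝ → ℝ} {φ' : ℝ} {w : ℂ} (h : HasDerivAt φ φ' w.im) :
    PD (fun w => φ w.im) w 0 φ' := by
  refine ⟨φ' • Complex.imCLM, h.comp_hasFDerivAt w Complex.imCLM.hasFDerivAt, ?_, ?_⟩
  · simp
  · simp

theorem const (c : ℝ) (w : ℂ) : PD (fun _ => c) w 0 0 :=
  ⟨0, hasFDerivAt_const c w, rfl, rfl⟩

theorem add {f g : ℂ → ℝ} {w : ℂ} {p q p' q' : ℝ} (hf : PD f w p q) (hg : PD g w p' q') :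
    PD (fun w => f w + g w) w (p + p') (q + q') := by
  obtain ⟨L, hL, h1, h2⟩ := hf
  obtain ⟨L', hL', h1', h2'⟩ := hg
  exact ⟨L + L', hL.add hL', by simp [h1, h1'], by simp [h2, h2']⟩

theorem sub {f g : ℂ → ℝ} {w : ℂ} {p q p' q' : ℝ} (hf : PD f w p q) (hg : PD g w p' q') :
    PD (fun w => f w - g w) w (p - p') (q - q') := by
  obtain ⟨L, hL, h1, h2⟩ := hf
  obtain ⟨L', hL', h1', h2'⟩ := hg
  exact ⟨L - L', hL.sub hL', by simp [h1, h1'], by simp [h2, h2']⟩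

theorem mul {f g : ℂ → ℝ} {w : ℂ} {p q p' q' : ℝ} (hf : PD f w p q) (hg : PD g w p' q') :
    PD (fun w => f w * g w) w (p * g w + f w * p') (q * g w + f w * q') := by
  obtain ⟨L, hL, h1, h2⟩ := hf
  obtain ⟨L', hL', h1', h2'⟩ := hg
  refine ⟨f w • L' + g w • L, hL.mul hL', ?_, ?_⟩
  · simp [h1, h1']; ring
  · simp [h2, h2']; ring

theorem comp {φ : ℝ → ℝ} {φ' : ℝ} {f : ℂ → ℝ} {w : ℂ} {p q : ℝ} (hφ : HasDerivAt φ φ' (f w))
    (hf : PD f w p q) : PD (fun w => φ (f w)) w (φ' * p) (φ' * q) := by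
  obtain ⟨L, hL, h1, h2⟩ := hf
  refine ⟨φ' • L, hφ.comp_hasFDerivAt w hL, ?_, ?_⟩
  · simp [h1]
  · simp [h2]

/-- the second derivatives -/
theorem dSS {f g : ℂ → ℝ} {w : ℂ} {r t : ℝ}
    (hf : ∀ᶠ z in 𝓝 w, ∃ q, PD f z (g z) q) (hg : PD g w r t) :
    Helper24.AB.dS (Helper24.AB.dS f) w = r := by
  have h : Helper24.AB.dS f =ᶠ[𝓝 w] g := hf.mono fun z hz => by
    obtain ⟨q, hq⟩ := hz
    exact hq.dS
  have h2 : Helper24.AB.dS (Helper24.AB.dS f) w = Helper24.AB.dS g w := by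
    unfold Helper24.AB.dS at h ⊢
    rw [h.fderiv_eq]
  rw [h2, hg.dS]

theorem dTT {f g : ℂ → ℝ} {w : ℂ} {r t : ℝ}
    (hf : ∀ᶠ z in 𝓝 w, ∃ p, PD f z p (g z)) (hg : PD g w r t) :
    Helper24.AB.dT (Helper24.AB.dT f) w = t := by
  have h : Helper24.AB.dT f =ᶠ[𝓝 w] g := hf.mono fun z hz => by
    obtain ⟨q, hq⟩ := hz
    exact hq.dT
  have h2 : Helper24.AB.dT (Helper24.AB.dT f) w = Helper24.AB.dT g w := by
    unfold Helper24.AB.dT at h ⊢
    rw [h.fderiv_eq]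
  rw [h2, hg.dT]

end PD

theorem strip_open (a : ℝ) : IsOpen (strip a) := by
  have h : strip a = (fun w : ℂ => |w.re|) ⁻¹' Iio a := rfl
  rw [h]
  exact isOpen_Iio.preimage (by fun_prop)

section
variable {a A : ℝ} {s : ℝ → ℝ} (hs : IsProfile a A s)
include hs

theorem hasDeriv_s {x : ℝ} (hx : |x| < a) : HasDerivAt s (deriv s x) x := by
  have hx' : x ∈ Ioo (-a) a := abs_lt.1 hx
  have h := hs.smooth.contDiffAt (isOpen_Ioo.mem_nhds hx')
  exact (h.differentiableAt (by simp)).hasDerivAt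

theorem hasDeriv_ds {x : ℝ} (hx : |x| < a) : HasDerivAt (deriv s) (deriv (deriv s) x) x := by
  have hx' : x ∈ Ioo (-a) a := abs_lt.1 hx
  have h : ContDiffOn ℝ 1 (deriv s) (Ioo (-a) a) :=
    hs.smooth.deriv_of_isOpen isOpen_Ioo (by norm_cast)
  exact ((h.contDiffAt (isOpen_Ioo.mem_nhds hx')).differentiableAt (by simp)).hasDerivAt

theorem F_pos {α α' l : ℝ} (h : α ≠ 0 ∨ α' ≠ 0 ∨ l ≠ 0) {w : ℂ} (hw : w ∈ strip a) :
    0 < Ff a A s α α' l w := by
  have hw' : |w.re| < a := hw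
  have hx : w.re ∈ Ioo (-a) a := abs_lt.1 hw'
  have he : 0 < a ^ 2 - w.re ^ 2 := by
    have := sq_lt_sq' hx.1 hx.2
    linarith
  have hs0 := hs.pos _ hx
  have hA := hs.A_pos
  have hg : 0 ≤ gf α' l w.im := by unfold gf; positivity
  unfold Ff
  by_cases hα : α = 0
  · have hg0 : 0 < gf α' l w.im := by
      unfold gf vf
      rcases h with h | h | h
      · exact absurd hα h
      · have h1 : 0 < (α' * Real.exp (-(kap * w.im))) ^ 2 := by
          have := Real.exp_pos (-(kap * w.im))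
          positivity
        positivity
      · positivity
    have : 0 < 4 * A ^ 2 * (a ^ 2 - w.re ^ 2) * gf α' l w.im := by positivity
    have h2 : 0 ≤ s w.re ^ 2 * uf α w.im ^ 2 := by positivity
    linarith
  · have h1 : 0 < uf α w.im ^ 2 := by
      unfold uf
      have := Real.exp_pos (kap * w.im)
      positivity
    have h2 : 0 < s w.re ^ 2 * uf α w.im ^ 2 := by positivity
    have h3 : 0 ≤ 4 * A ^ 2 * (a ^ 2 - w.re ^ 2) * gf α' l w.im := by positivity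
    linarith

end

theorem hasDeriv_u (α t : ℝ) : HasDerivAt (uf α) (kap * uf α t) t := by
  have h : HasDerivAt (fun t => kap * t) kap t := by
    simpa using (hasDerivAt_id t).const_mul kap
  have h2 := (h.exp).const_mul α
  change HasDerivAt (fun t => α * Real.exp (kap * t)) (kap * (α * Real.exp (kap * t))) t
  exact h2.congr_deriv (by ring)

theorem hasDeriv_v (α' t : ℝ) : HasDerivAt (vf α') (-(kap * vf α' t)) t := by
  have h0 : HasDerivAt (fun t => kap * t) kap t := by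
    simpa using (hasDerivAt_id t).const_mul kap
  have h : HasDerivAt (fun t => -(kap * t)) (-kap) t := h0.fun_neg
  have h2 := (h.exp).const_mul α'
  change HasDerivAt (fun t => α' * Real.exp (-(kap * t))) (-(kap * (α' * Real.exp (-(kap * t))))) t
  exact h2.congr_deriv (by ring)

/-- `F_σ` -/
def F1 (a A : ℝ) (s : ℝ → ℝ) (α α' l : ℝ) (w : ℂ) : ℝ :=
  2 * s w.re * deriv s w.re * uf α w.im ^ 2 - 2 * (4 * A ^ 2) * w.re * gf α' l w.im

/-- `F_t` -/
def F2 (a A : ℝ) (s : ℝ → ℝ) (α α' : ℝ) (w : ℂ) : ℝ :=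
  2 * kap * (s w.re ^ 2 * uf α w.im ^ 2 - 4 * A ^ 2 * (a ^ 2 - w.re ^ 2) * vf α' w.im ^ 2)

section
variable {a A : ℝ} {s : ℝ → ℝ} (hs : IsProfile a A s) (α α' l : ℝ)
include hs

theorem pd_s {w : ℂ} (hw : w ∈ strip a) : PD (fun w => s w.re) w (deriv s w.re) 0 :=
  PD.re (hasDeriv_s hs hw)

theorem pd_ds {w : ℂ} (hw : w ∈ strip a) :
    PD (fun w => deriv s w.re) w (deriv (deriv s) w.re) 0 :=
  PD.re (hasDeriv_ds hs hw)

omit hs in
theorem pd_x (w : ℂ) : PD (fun w => w.re) w 1 0 := PD.re (φ := fun x => x) (hasDerivAt_id w.re)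

omit hs in
theorem pd_u (w : ℂ) : PD (fun w => uf α w.im) w 0 (kap * uf α w.im) := PD.im (hasDeriv_u α w.im)

omit hs in
theorem pd_v (w : ℂ) : PD (fun w => vf α' w.im) w 0 (-(kap * vf α' w.im)) :=
  PD.im (hasDeriv_v α' w.im)

theorem pd_F {w : ℂ} (hw : w ∈ strip a) :
    PD (Ff a A s α α' l) w (F1 a A s α α' l w) (F2 a A s α α' w) := by
  have h1 := ((pd_s hs hw).mul (pd_s hs hw)).mul ((pd_u α w).mul (pd_u α w))
  have h2 := ((PD.const (4 * A ^ 2) w).mul ((PD.const (a ^ 2) w).sub ((pd_x w).mul (pd_x w)))).mul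
    (((pd_v α' w).mul (pd_v α' w)).add (PD.const (l ^ 2) w))
  have h3 := h1.add h2
  have e : (Ff a A s α α' l) = fun w => s w.re * s w.re * (uf α w.im * uf α w.im) +
      4 * A ^ 2 * (a ^ 2 - w.re * w.re) * (vf α' w.im * vf α' w.im + l ^ 2) := by
    funext w
    unfold Ff gf
    ring
  rw [e]
  refine h3.congr ?_ ?_
  · unfold F1 gf
    ring
  · unfold F2
    ring

theorem pd_F1 {w : ℂ} (hw : w ∈ strip a) : ∃ q, PD (F1 a A s α α' l) w
    (2 * (deriv s w.re ^ 2 + s w.re * deriv (deriv s) w.re) * uf α w.im ^ 2 -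
      2 * (4 * A ^ 2) * gf α' l w.im) q := by
  have h1 := (((PD.const 2 w).mul (pd_s hs hw)).mul (pd_ds hs hw)).mul ((pd_u α w).mul (pd_u α w))
  have h2 := (((PD.const (2 * (4 * A ^ 2)) w)).mul (pd_x w)).mul
    (((pd_v α' w).mul (pd_v α' w)).add (PD.const (l ^ 2) w))
  have h3 := h1.sub h2
  have e : (F1 a A s α α' l) = fun w => 2 * s w.re * deriv s w.re * (uf α w.im * uf α w.im) -
      2 * (4 * A ^ 2) * w.re * (vf α' w.im * vf α' w.im + l ^ 2) := by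
    funext w
    unfold F1 gf
    ring
  rw [e]
  refine ⟨_, h3.congr ?_ rfl⟩
  unfold gf
  ring

theorem pd_F2 {w : ℂ} (hw : w ∈ strip a) : ∃ p, PD (F2 a A s α α') w p
    (4 * kap ^ 2 * (s w.re ^ 2 * uf α w.im ^ 2 +
      4 * A ^ 2 * (a ^ 2 - w.re ^ 2) * vf α' w.im ^ 2)) := by
  have h1 := ((pd_s hs hw).mul (pd_s hs hw)).mul ((pd_u α w).mul (pd_u α w))
  have h2 := ((PD.const (4 * A ^ 2) w).mul ((PD.const (a ^ 2) w).sub ((pd_x w).mul (pd_x w)))).mul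
    ((pd_v α' w).mul (pd_v α' w))
  have h3 := (PD.const (2 * kap) w).mul (h1.sub h2)
  have e : (F2 a A s α α') = fun w => 2 * kap * (s w.re * s w.re * (uf α w.im * uf α w.im) -
      4 * A ^ 2 * (a ^ 2 - w.re * w.re) * (vf α' w.im * vf α' w.im)) := by
    funext w
    unfold F2
    ring
  rw [e]
  refine ⟨_, h3.congr rfl ?_⟩
  ring

end

/-- first derivatives of a square root -/
theorem pd_sqrt {F : ℂ → ℝ} {w : ℂ} {p q : ℝ} (h : PD F w p q) (h0 : 0 < F w) :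
    PD (fun w => Real.sqrt (F w)) w (p / (2 * Real.sqrt (F w))) (q / (2 * Real.sqrt (F w))) := by
  refine (PD.comp (Real.hasDerivAt_sqrt h0.ne') h).congr ?_ ?_ <;> ring

/-- first derivatives of `G / (2√F)` -/
theorem pd_quot {F G : ℂ → ℝ} {w : ℂ} {p q r t : ℝ} (h : PD F w p q) (hG : PD G w r t)
    (h0 : 0 < F w) : PD (fun w => G w / (2 * Real.sqrt (F w))) w
      (r / (2 * Real.sqrt (F w)) - G w * p / (4 * (F w * Real.sqrt (F w))))
      (t / (2 * Real.sqrt (F w)) - G w * q / (4 * (F w * Real.sqrt (F w)))) := by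
  have hr : 0 < Real.sqrt (F w) := Real.sqrt_pos.2 h0
  have hr2 : Real.sqrt (F w) ^ 2 = F w := Real.sq_sqrt h0.le
  have hd : HasDerivAt (fun x : ℝ => (2 * x)⁻¹) (-(1 / (2 * Real.sqrt (F w) ^ 2)))
      (Real.sqrt (F w)) := by
    have h1 : HasDerivAt (fun x : ℝ => 2 * x) 2 (Real.sqrt (F w)) := by
      simpa using (hasDerivAt_id (Real.sqrt (F w))).const_mul (2 : ℝ)
    have h2 := h1.fun_inv (by positivity)
    refine h2.congr_deriv ?_
    rw [mul_pow]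
    field_simp
  have h3 := hG.mul (PD.comp hd (pd_sqrt h h0))
  have e : (fun w => G w / (2 * Real.sqrt (F w))) = fun w => G w * (2 * Real.sqrt (F w))⁻¹ := by
    funext w
    rw [div_eq_mul_inv]
  rw [e]
  refine h3.congr ?_ ?_
  · rw [hr2]
    field_simp
    ring
  · rw [hr2]
    field_simp
    ring

theorem lapC_sqrt {a A : ℝ} {s : ℝ → ℝ} (hs : IsProfile a A s) {α α' l : ℝ}
    (h : α ≠ 0 ∨ α' ≠ 0 ∨ l ≠ 0) {w : ℂ} (hw : w ∈ strip a) :
    lapC (fun w => Real.sqrt (Ff a A s α α' l w)) w * (4 * Ff a A s α α' l w *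
      Real.sqrt (Ff a A s α α' l w)) =
    2 * Ff a A s α α' l w * ((2 * (deriv s w.re ^ 2 + s w.re * deriv (deriv s) w.re) *
      uf α w.im ^ 2 - 2 * (4 * A ^ 2) * gf α' l w.im) +
      4 * kap ^ 2 * (s w.re ^ 2 * uf α w.im ^ 2 +
      4 * A ^ 2 * (a ^ 2 - w.re ^ 2) * vf α' w.im ^ 2)) - F1 a A s α α' l w ^ 2 -
      F2 a A s α α' w ^ 2 := by
  have hpos : ∀ z ∈ strip a, 0 < Ff a A s α α' l z := fun z hz => F_pos hs h hz
  have hn : ∀ᶠ z in 𝓝 w, z ∈ strip a := (strip_open a).mem_nhds hw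
  obtain ⟨q1, hq1⟩ := pd_F1 hs α α' l hw
  obtain ⟨p2, hp2⟩ := pd_F2 hs α α' hw
  have h1 := PD.dSS (f := fun w => Real.sqrt (Ff a A s α α' l w))
    (g := fun w => F1 a A s α α' l w / (2 * Real.sqrt (Ff a A s α α' l w)))
    (hn.mono fun z hz => ⟨_, pd_sqrt (pd_F hs α α' l hz) (hpos z hz)⟩)
    (pd_quot (pd_F hs α α' l hw) hq1 (hpos w hw))
  have h2 := PD.dTT (f := fun w => Real.sqrt (Ff a A s α α' l w))
    (g := fun w => F2 a A s α α' w / (2 * Real.sqrt (Ff a A s α α' l w)))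
    (hn.mono fun z hz => ⟨_, pd_sqrt (pd_F hs α α' l hz) (hpos z hz)⟩)
    (pd_quot (pd_F hs α α' l hw) hp2 (hpos w hw))
  unfold lapC
  rw [h1, h2]
  have hF := hpos w hw
  have hr : 0 < Real.sqrt (Ff a A s α α' l w) := Real.sqrt_pos.2 hF
  field_simp
  ring

theorem tex : S_TEX := by
  intro a A s hs α α' l h w hw
  refine ⟨F_pos hs h hw, ?_⟩
  rw [lapC_sqrt hs h hw]
  unfold F1 F2 Ff gf
  ring

end Pool.Agent.Helper39.AB
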